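import Pool.Agent.H55.GEN.GluR
import Pool.Agent.H14.P4.Stm

/-!
# P4: the paths over the closed labels

The natural height of the path of the line over a closed label is small at the exact time of every
sample. The time is uniform given the line, so it is small on the whole window.
-/

set_option autoImplicit false

namespace Pool.P4

open Finset Real MvPolynomial
open Pool.Agent.H49.Ent Pool.Agent.H32.Dense Pool.STK Pool.KA Pool.K2S Pool.STAT Pool.STAT.Glu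
open Pool.MIC.Frm
open Pool.BFL (Pb)

section paths

theorem nd_aeval {σ : Type} (Q : MvPolynomial σ ℝ) (g : σ → Polynomial ℝ) {d : ℕ}
    (hg : ∀ i, (g i).natDegree ≤ d) {D : ℕ} (h : Q.totalDegree ≤ D) :
    (MvPolynomial.aeval g Q).natDegree ≤ D * d := by
  rw [MvPolynomial.aeval_def, MvPolynomial.eval₂_eq]
  refine Polynomial.natDegree_sum_le_of_forall_le _ _ fun α hα => ?_
  refine (Polynomial.natDegree_mul_le).trans ?_
  have h1 : (algebraMap ℝ (Polynomial ℝ) (MvPolynomial.coeff α Q)).natDegree = 0 :=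
    Polynomial.natDegree_C _
  have h2 : (∏ i ∈ α.support, g i ^ α i).natDegree ≤ α.degree * d := by
    refine (Polynomial.natDegree_prod_le _ _).trans ?_
    rw [Finsupp.degree_apply, Finset.sum_mul]
    refine Finset.sum_le_sum fun i _ => ?_
    exact Polynomial.natDegree_pow_le.trans (Nat.mul_le_mul_left (α i) (hg i))
  rw [h1, zero_add]
  exact h2.trans (Nat.mul_le_mul_right _ ((MvPolynomial.le_totalDegree hα).trans h))

variable {D : NDat2} {n K J a₀ w₀ z M : ℕ} {lam gam : ℕ → ℝ} {κ C₁ : ℝ} {q : D.Ω → ℝ}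

/-- The coordinates of the line, the coordinate `0` is the time. -/
noncomputable def ppl (D : NDat2) (x : D.Λ) (l : ℕ) : Polynomial ℝ :=
  if l = 0 then Polynomial.X else D.pa x l

theorem ppl_eval (x : D.Λ) (t : ℝ) (l : ℕ) : (ppl D x l).eval t = pp D x t l := by
  unfold ppl pp
  split_ifs
  · rw [Polynomial.eval_X]
  · rfl

/-- The natural height of the path over the label at `(i, j)`, line side, as a polynomial in the
time. -/
noncomputable def ph (D : NDat2) (i j : ℕ) (ω : D.Ω) (l : ℕ) : Polynomial ℝ :=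
  Polynomial.C ((2 : ℝ) ^ D.g i j l) *
    (ppl D (D.ln ω) l - MvPolynomial.aeval (ppl D (D.ln ω)) (D.Φ i j ω l))

theorem eval_aeval_ppl (x : D.Λ) (F : PN) (t : ℝ) :
    (MvPolynomial.aeval (ppl D x) F).eval t = eval (pp D x t) F := by
  rw [MvPolynomial.aeval_def, MvPolynomial.eval₂_eq, MvPolynomial.eval_eq,
    Polynomial.eval_finsetSum]
  refine Finset.sum_congr rfl fun α _ => ?_
  rw [Polynomial.eval_mul, Polynomial.eval_prod]
  simp only [Polynomial.eval_pow, ppl_eval]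
  rw [show (algebraMap ℝ (Polynomial ℝ)) (MvPolynomial.coeff α F) =
    Polynomial.C (MvPolynomial.coeff α F) from rfl, Polynomial.eval_C]

theorem ph_eval (i j : ℕ) (ω : D.Ω) (l : ℕ) (t : ℝ) :
    (ph D i j ω l).eval t = nat (D.g i j) (D.Φ i j ω) (pp D (D.ln ω) t) l := by
  unfold ph nat
  rw [Polynomial.eval_mul, Polynomial.eval_C, Polynomial.eval_sub, eval_aeval_ppl, ppl_eval]

/-- The path at the exact time. -/
theorem pp_X (hO : D.Ok2 n K J a₀ w₀ z M lam gam κ C₁ q) {ω : D.Ω} (hω : 0 < q ω) {l : ℕ}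
    (hl : l ≤ n) : pp D (D.ln ω) (D.X ω 0) l = D.X ω l := by
  unfold pp
  split_ifs with h
  · rw [h]
  · exact (hO.str ω hω l hl).symm

theorem eval_vr {F : PN} {m : ℕ} (hF : F.vars ⊆ range m) {x y : ℕ → ℝ}
    (h : ∀ k < m, x k = y k) : eval x F = eval y F := by
  refine eval₂Hom_congr' rfl (fun i hi _ => ?_) rfl
  exact h i (mem_range.1 (hF hi))

/-- The height of the path at the exact time. -/
theorem ph_X (hO : D.Ok2 n K J a₀ w₀ z M lam gam κ C₁ q) {i j : ℕ} (hi : i ≤ M) (hj : j ≤ M)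
    {ω : D.Ω} (hω : 0 < q ω) {l : ℕ} (hl : l ≤ n) :
    |(ph D i j ω l).eval (D.X ω 0)| ≤ 1 := by
  rw [ph_eval]
  unfold nat
  rw [pp_X hO hω hl]
  have h1 : eval (pp D (D.ln ω) (D.X ω 0)) (D.Φ i j ω l) = eval (D.X ω) (D.Φ i j ω l) := by
    refine eval_vr (m := l) (hO.P_tri i j _ l) fun k hk => ?_
    exact pp_X hO hω (by omega)
  rw [h1, abs_mul, abs_of_pos (by positivity)]
  have h2 := hO.hgt i hi j hj ω hω l hl
  unfold NDat2.rh at h2
  rw [le_div_iff₀ (by positivity)] at h2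
  linarith

theorem ph_deg (hO : D.Ok2 n K J a₀ w₀ z M lam gam κ C₁ q) (i j : ℕ) (ω : D.Ω) (l : ℕ) :
    (ph D i j ω l).natDegree ≤ (K + 1) * (K + 1) := by
  have h0 : ∀ x l, (ppl D x l).natDegree ≤ K + 1 := by
    intro x l
    unfold ppl
    split_ifs
    · exact Polynomial.natDegree_X_le.trans (by omega)
    · exact (hO.pa_deg x l).trans (Nat.le_succ _)
  unfold ph
  refine (Polynomial.natDegree_C_mul_le _ _).trans ((Polynomial.natDegree_sub_le _ _).trans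
    (max_le ?_ ?_))
  · exact (h0 _ l).trans (Nat.le_mul_of_pos_left _ (Nat.succ_pos _))
  · exact (nd_aeval _ _ (h0 _) (hO.P_deg i j _ l)).trans
      (Nat.mul_le_mul_right _ (Nat.le_succ _))

theorem ph_det (hO : D.Ok2 n K J a₀ w₀ z M lam gam κ C₁ q) {i j : ℕ} (hi : i ≤ M) (hj : j ≤ M)
    (l : ℕ) : Det q (D.wn J (w₀ + j * z)) (fun ω => ph D i j ω l) := by
  intro ω ω' hω hω' h
  have h1 : D.ln ω = D.ln ω' := (Prod.ext_iff.1 h).1
  have h2 : D.c i j ω = D.c i j ω' := hO.c_wn i hi j hj ω ω' hω hω' h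
  show ph D i j ω l = ph D i j ω' l
  unfold ph NDat2.Φ
  rw [h1, h2]

/-- **The path on the whole window**, one pair. -/
theorem pth_one (n K : ℕ) (η ε : ℝ) (hη : 0 < η) (hε : 0 < ε) : ∃ (κ₀ : ℝ) (z₀ : ℕ), 0 < κ₀ ∧
    ∀ (J a₀ w₀ z M : ℕ) (lam gam : ℕ → ℝ) (κ κ' C₁ : ℝ) (D : NDat2) (q : D.Ω → ℝ), z₀ ≤ z →
      κ' ≤ κ₀ → D.Ok2 n K J a₀ w₀ z M lam gam κ C₁ q → D.TmU J w₀ z κ' q →
      ∀ i ≤ M, ∀ j ≤ M, ∃ B : D.Ω → Prop, (∀ ω, B ω → 0 < q ω) ∧ 1 - η ≤ Pb q B ∧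
        ∀ ω, B ω → ∀ t : ℝ, |t - D.X ω 0| ≤ 1 / 2 ^ (w₀ + j * z) → ∀ l ≤ n,
          |nat (D.g i j) (D.Φ i j ω) (pp D (D.ln ω) t) l| ≤ exp (ε * z) := by
  classical
  obtain ⟨η₁, hη₁⟩ : ∃ η₁ : ℝ, η₁ = min η 1 := ⟨_, rfl⟩
  have hη0 : 0 < η₁ := by rw [hη₁]; exact lt_min hη one_pos
  have hη1 : η₁ ≤ 1 := by rw [hη₁]; exact min_le_right _ _
  have hηη : η₁ ≤ η := by rw [hη₁]; exact min_le_left _ _
  obtain ⟨C, hC, h⟩ := rmz_det ((K + 1) * (K + 1)) (Fin (n + 1)) η₁ hη0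
  obtain ⟨ε₁, hε₁⟩ : ∃ ε₁ : ℝ, ε₁ = min ε 1 := ⟨_, rfl⟩
  have hε0 : 0 < ε₁ := by rw [hε₁]; exact lt_min hε one_pos
  have hε1 : ε₁ ≤ 1 := by rw [hε₁]; exact min_le_right _ _
  have hεε : ε₁ ≤ ε := by rw [hε₁]; exact min_le_left _ _
  obtain ⟨z₀, hz₀⟩ := exists_nat_ge ((4 * C + 4) / ε₁)
  refine ⟨ε₁ / (4 * C), z₀, by positivity, ?_⟩
  intro J a₀ w₀ z M lam gam κ κ' C₁ D q hz hκ hO hT i hi j hj
  have hzz : (z₀ : ℝ) ≤ z := by exact_mod_cast hz
  have hz0 : (0 : ℝ) ≤ z := Nat.cast_nonneg z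
  have hbig : 4 * C + 4 ≤ ε₁ * z := by
    rw [div_le_iff₀ hε0] at hz₀
    nlinarith
  obtain ⟨E, hE⟩ : ∃ E : ℝ, E = 1 + ε₁ / (4 * C) * z := ⟨_, rfl⟩
  have hE1 : 1 ≤ E := by
    rw [hE]
    have : 0 ≤ ε₁ / (4 * C) * z := by positivity
    linarith
  obtain ⟨z', hz'⟩ : ∃ z' : ℕ, z' = ⌈C * E⌉₊ := ⟨_, rfl⟩
  have hz'1 : C * E ≤ z' := by rw [hz']; exact Nat.le_ceil _
  have hz'2 : (z' : ℝ) < C * E + 1 := by
    rw [hz']
    exact Nat.ceil_lt_add_one (by positivity)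
  have hCE : C * E = C + ε₁ * z / 4 := by
    rw [hE]
    field_simp
  have h2z' : 2 * (z' : ℝ) ≤ ε₁ * z := by
    have : 2 * (z' : ℝ) ≤ 2 * (C + ε₁ * z / 4 + 1) := by linarith
    linarith
  have hz'z : z' ≤ z := by
    have h1 : 2 * (z' : ℝ) ≤ z := h2z'.trans (mul_le_of_le_one_left hz0 hε1)
    have h2 : (z' : ℝ) ≤ z := by
      have : (0 : ℝ) ≤ z' := Nat.cast_nonneg _
      linarith
    exact_mod_cast h2
  have hjM : j * z ≤ M * z := Nat.mul_le_mul_right z hj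
  have hthin := hO.thin
  have htop := hO.top
  have hMz : (M + 1) * z = M * z + z := by ring
  have hwz : w₀ + j * z + z' ≤ J := by omega
  have hT' := hT
  unfold NDat2.TmU at hT'
  have htime := time_cell hO.isLaw (J := J) (w₀ := w₀) (r := w₀ + j * z) (T := D.T) (ln := D.ln)
    (S := κ' * z) (by omega) (by omega) hO.ln_w hT'
  have hκz : κ' * z ≤ E := by
    rw [hE]
    have := mul_le_mul_of_nonneg_right hκ hz0
    linarith
  have hPA : Pe q (fun _ => True) = 1 := by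
    rw [Pe_eq]
    simp only [if_true]
    exact hO.isLaw.sum_one
  obtain ⟨B, hB1, hB2, hB3⟩ := h J (w₀ + j * z) z' D.Ω (D.Λ × ℕ) q D.T (D.wn J (w₀ + j * z))
    (fun _ => True) E (fun l ω => ph D i j ω l) hO.isLaw hO.T_lt hwz
    (fun ω ω' _ _ h => (Prod.ext_iff.1 h).2) (by rw [hPA]; exact hη1) hE1 (by
      have : CH q D.T (fun ω => (D.ln ω, D.T ω / 2 ^ (J - (w₀ + j * z)))) =
        CH q D.T (D.wn J (w₀ + j * z)) := rfl
      rw [← this]
      linarith) hz'1 (fun l => ph_det hO hi hj l) (fun l ω _ => ph_deg hO i j ω l)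
      (fun l ω hω _ => by
        have h1 := ph_X hO hi hj hω (Nat.lt_succ_iff.1 l.2)
        rwa [hO.X_zero ω] at h1)
  refine ⟨B, fun ω hω => (hB1 ω hω).1, ?_, ?_⟩
  · rw [Pb_eq_Pe]
    rw [hPA] at hB2
    linarith
  · intro ω hω t ht l hl
    rw [hO.X_zero ω] at ht
    rw [← ph_eval]
    refine (hB3 ω hω t ht ⟨l, Nat.lt_succ_iff.2 hl⟩).trans ?_
    have e1 : (2 : ℝ) ^ (2 * z') = exp ((2 * z' : ℕ) * Real.log 2) := by
      rw [exp_nat_mul, exp_log (by norm_num)]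
    rw [e1]
    refine exp_le_exp.2 ?_
    have hl2 : Real.log 2 ≤ 1 := by linarith [Real.log_two_lt_d9]
    push_cast
    calc 2 * (z' : ℝ) * Real.log 2 ≤ 2 * (z' : ℝ) * 1 :=
          mul_le_mul_of_nonneg_left hl2 (by positivity)
      _ ≤ ε₁ * z := by linarith
      _ ≤ ε * z := mul_le_mul_of_nonneg_right hεε hz0

end paths

/-- The probability of a union over a square. -/
theorem Pb_sq {Ω : Type} [Fintype Ω] {q : Ω → ℝ} (hq : ∀ ω, 0 ≤ q ω) (M : ℕ)
    (B : ℕ → ℕ → Ω → Prop) (A : Ω → Prop)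
    (h : ∀ ω, 0 < q ω → A ω → ∃ i ≤ M, ∃ j ≤ M, B i j ω) :
    Pb q A ≤ ∑ i ∈ range (M + 1), ∑ j ∈ range (M + 1), Pb q (B i j) := by
  classical
  unfold Pb
  have e1 : ∑ i ∈ range (M + 1), ∑ j ∈ range (M + 1), ∑ ω, (if B i j ω then q ω else 0) =
      ∑ ω, ∑ i ∈ range (M + 1), ∑ j ∈ range (M + 1), (if B i j ω then q ω else 0) := by
    rw [Finset.sum_comm' (s := range (M + 1)) (t := fun _ => range (M + 1))
      (s' := fun _ => range (M + 1)) (t' := range (M + 1)) (by simp)]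
    rw [Finset.sum_comm' (s := range (M + 1)) (t := fun _ => range (M + 1))
      (s' := fun _ => range (M + 1)) (t' := range (M + 1)) (by simp)]
    rw [Finset.sum_congr rfl fun i _ => Finset.sum_comm]
    exact Finset.sum_comm
  rw [e1]
  refine Finset.sum_le_sum fun ω _ => ?_
  have h0 : ∀ i j, 0 ≤ (if B i j ω then q ω else 0) := by
    intro i j
    split_ifs
    exacts [hq ω, le_rfl]
  by_cases hA : A ω
  · rcases (hq ω).eq_or_lt with h1 | h1
    · rw [if_pos hA, ← h1]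
      exact Finset.sum_nonneg fun i _ => Finset.sum_nonneg fun j _ => by
        have := h0 i j
        rwa [← h1] at this
    · obtain ⟨i, hi, j, hj, hB⟩ := h ω h1 hA
      rw [if_pos hA]
      calc q ω = (if B i j ω then q ω else 0) := by rw [if_pos hB]
        _ ≤ ∑ j ∈ range (M + 1), (if B i j ω then q ω else 0) :=
            Finset.single_le_sum (f := fun j => if B i j ω then q ω else 0) (fun j _ => h0 i j)
              (mem_range.2 (by omega))
        _ ≤ _ := Finset.single_le_sum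
              (f := fun i => ∑ j ∈ range (M + 1), (if B i j ω then q ω else 0))
              (fun i _ => Finset.sum_nonneg fun j _ => h0 i j) (mem_range.2 (by omega))
  · rw [if_neg hA]
    exact Finset.sum_nonneg fun i _ => Finset.sum_nonneg fun j _ => h0 i j

/-- **(PTH)** -/
theorem pth_stmt : PthStmt := by
  classical
  intro n K M lam gam C₁ e hC₁ he
  obtain ⟨κ₀, z₀, hκ₀, h⟩ := pth_one n K (e / ((M + 1) * (M + 1))) 1 (by positivity) one_pos
  refine ⟨κ₀, z₀, hκ₀, ?_⟩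
  intro J a₀ w₀ z D q hz hO hT
  have hq0 := hO.isLaw.nonneg
  have h1 : ∀ i j, ∃ B : D.Ω → Prop, i ≤ M → j ≤ M → (∀ ω, B ω → 0 < q ω) ∧
      1 - e / ((M + 1) * (M + 1)) ≤ Pb q B ∧
        ∀ ω, B ω → ∀ t : ℝ, |t - D.X ω 0| ≤ 1 / 2 ^ (w₀ + j * z) → ∀ l ≤ n,
          |nat (D.g i j) (D.Φ i j ω) (pp D (D.ln ω) t) l| ≤ exp (1 * z) := by
    intro i j
    by_cases hi : i ≤ M
    · by_cases hj : j ≤ M
      · obtain ⟨B, hB⟩ := h J a₀ w₀ z M lam gam κ₀ κ₀ C₁ D q hz le_rfl hO hT i hi j hj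
        exact ⟨B, fun _ _ => hB⟩
      · exact ⟨fun _ => True, fun _ h => absurd h hj⟩
    · exact ⟨fun _ => True, fun h => absurd h hi⟩
  choose B hB using h1
  have hnot : ∀ A : D.Ω → Prop, Pb q (fun ω => ¬ A ω) = 1 - Pb q A := by
    intro A
    unfold Pb
    rw [← hO.isLaw.sum_one, ← Finset.sum_sub_distrib]
    refine Finset.sum_congr rfl fun ω _ => ?_
    by_cases hA : A ω
    · rw [if_neg (not_not.2 hA), if_pos hA, sub_self]
    · rw [if_pos hA, if_neg hA, sub_zero]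
  have h2 := Pb_sq hq0 M (fun i j ω => ¬ B i j ω) (fun ω => ¬ PthC D n w₀ z M 1 ω) (by
    intro ω _ hω
    by_contra hcon
    push Not at hcon
    refine hω fun i hi j hj l hl t ht => ?_
    exact (hB i j hi hj).2.2 ω (hcon i hi j hj) t ht l hl)
  refine h2.trans ?_
  have h3 : ∀ i ∈ range (M + 1), ∀ j ∈ range (M + 1),
      Pb q (fun ω => ¬ B i j ω) ≤ e / ((M + 1) * (M + 1)) := by
    intro i hi j hj
    rw [hnot]
    have := (hB i j (Nat.lt_succ_iff.1 (mem_range.1 hi)) (Nat.lt_succ_iff.1 (mem_range.1 hj))).2.1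
    linarith
  refine (Finset.sum_le_sum fun i hi => Finset.sum_le_sum fun j hj => h3 i hi j hj).trans ?_
  rw [Finset.sum_const, Finset.sum_const, card_range, nsmul_eq_mul, nsmul_eq_mul]
  push_cast
  refine le_of_eq ?_
  field_simp

end Pool.P4
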