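import Pool.Agent.H19.STAT.Sys2
import Pool.Agent.H39.BFL.Prob

/-!
# Digits of vectors which are near on an event
-/

set_option autoImplicit false

namespace Pool.P470

open Finset Real
open Pool.Agent.H49.Ent Pool.Agent.H32.Dense Pool.STK
open Pool.BFL (Pb)

variable {Ω : Type} [Fintype Ω] {S T : Type}

/-- Entropy of a vector. -/
theorem ch_fin {q : Ω → ℝ} (hq : ∀ ω, 0 ≤ q ω) : ∀ {n : ℕ} (X : Ω → Fin n → S) (W : Ω → T),
    CH q X W ≤ ∑ i, CH q (fun ω => X ω i) W
  | 0, X, W => by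
    rw [CH_eq_zero hq fun ω ω' _ _ _ => funext fun i => i.elim0]
    simp
  | n + 1, X, W => by
    have h1 : CH q X W ≤ CH q (fun ω => (X ω 0, fun i : Fin n => X ω i.succ)) W :=
      CH_mono_left hq fun ω ω' _ _ h => by
        have h2 := Prod.ext_iff.mp (Prod.ext_iff.mp h).1
        funext i
        refine Fin.cases h2.1 (fun j => congrFun h2.2 j) i
    have h2 := CH_subadd hq (fun ω => X ω 0) (fun ω (i : Fin n) => X ω i.succ) W
    have h3 := ch_fin hq (fun ω (i : Fin n) => X ω i.succ) W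
    rw [Fin.sum_univ_succ]
    linarith

/-- The price of an event. -/
theorem ch_ev {q : Ω → ℝ} (hq : IsLaw q) (X : Ω → S) (W : Ω → T) (G : Ω → Prop) :
    CH q X W ≤ 1 + CH q X (fun ω => (G ω, W ω)) := by
  classical
  have h1 := CH_le_add hq.nonneg X (fun ω => G ω) W
  have h2 : CH q (fun ω => G ω) W ≤ 1 := by
    refine (CH_le_card hq.nonneg hq.sum_one (fun ω => G ω) W (fun _ => {True, False})
      fun ω _ => ?_).trans ?_
    · by_cases h : G ω <;> simp [h]
    · rw [Ex_const hq.sum_one]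
      have h3 : (({True, False} : Finset Prop).card : ℝ) ≤ 2 := by
        exact_mod_cast Finset.card_le_two
      have h4 : (0 : ℝ) < (({True, False} : Finset Prop).card : ℝ) := by
        exact_mod_cast Finset.card_pos.2 ⟨True, by simp⟩
      have h5 := Real.log_le_sub_one_of_pos h4
      linarith
  linarith

/-- Integers which are near on an event. -/
theorem ch_int {q : Ω → ℝ} (hq : IsLaw q) (X : Ω → ℤ) (W : Ω → T) (G : Ω → Prop) {a b η : ℝ}
    (ha : 0 ≤ a) (hb : 0 ≤ b) (hη : Pb q (fun ω => ¬ G ω) ≤ η)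
    (h1 : ∀ ω ω', 0 < q ω → 0 < q ω' → G ω → G ω' → W ω = W ω' →
      |((X ω - X ω' : ℤ) : ℝ)| ≤ a)
    (h2 : ∀ ω ω', 0 < q ω → 0 < q ω' → |((X ω - X ω' : ℤ) : ℝ)| ≤ b) :
    CH q X (fun ω => (G ω, W ω)) ≤ Real.log (2 * a + 1) + η * Real.log (2 * b + 1) := by
  classical
  have h3 := CH_le_int hq.nonneg hq.sum_one X (fun ω => (G ω, W ω))
    (fun ω => if G ω then a else b) (fun ω ω' hω hω' e => by
      have e1 := Prod.ext_iff.mp e
      by_cases hG : G ω
      · rw [if_pos hG]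
        have hG' : G ω' := by
          have := e1.1
          simp only at this
          rwa [this] at hG
        exact h1 ω ω' hω hω' hG hG' e1.2
      · rw [if_neg hG]
        exact h2 ω ω' hω hω')
  refine h3.trans ?_
  have hla : 0 ≤ Real.log (2 * a + 1) := Real.log_nonneg (by linarith)
  have hlb : 0 ≤ Real.log (2 * b + 1) := Real.log_nonneg (by linarith)
  unfold Ex
  calc ∑ ω, q ω * Real.log (2 * (if G ω then a else b) + 1)
      ≤ ∑ ω, (q ω * Real.log (2 * a + 1) +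
        (if ¬ G ω then q ω else 0) * Real.log (2 * b + 1)) := by
        refine Finset.sum_le_sum fun ω _ => ?_
        by_cases hG : G ω
        · rw [if_pos hG, if_neg (not_not.2 hG)]
          linarith
        · rw [if_neg hG, if_pos hG]
          have := mul_nonneg (hq.nonneg ω) hla
          linarith
    _ = Real.log (2 * a + 1) + Pb q (fun ω => ¬ G ω) * Real.log (2 * b + 1) := by
        rw [Finset.sum_add_distrib, ← Finset.sum_mul, ← Finset.sum_mul, hq.sum_one, one_mul]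
        congr 2
        unfold Pb
        exact Finset.sum_congr rfl fun ω _ => by congr
    _ ≤ _ := by
        have := mul_le_mul_of_nonneg_right hη hlb
        linarith

/-- **Vectors which are near on an event.** -/
theorem ch_vec {q : Ω → ℝ} (hq : IsLaw q) {m : ℕ} (X : Ω → Fin m → ℤ) (W : Ω → T)
    (G : Ω → Prop) {a b : ℝ} (ha : 0 ≤ a) (hb : 0 ≤ b)
    (h1 : ∀ ω ω', 0 < q ω → 0 < q ω' → G ω → G ω' → W ω = W ω' → ∀ l,
      |((X ω l - X ω' l : ℤ) : ℝ)| ≤ a)
    (h2 : ∀ ω ω', 0 < q ω → 0 < q ω' → ∀ l, |((X ω l - X ω' l : ℤ) : ℝ)| ≤ b) :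
    CH q X W ≤ 1 + m * (Real.log (2 * a + 1) +
      Pb q (fun ω => ¬ G ω) * Real.log (2 * b + 1)) := by
  have h3 := ch_ev hq X W G
  have h4 := ch_fin hq.nonneg X (fun ω => (G ω, W ω))
  have h5 : ∑ l, CH q (fun ω => X ω l) (fun ω => (G ω, W ω)) ≤
      ∑ _l : Fin m, (Real.log (2 * a + 1) + Pb q (fun ω => ¬ G ω) * Real.log (2 * b + 1)) :=
    Finset.sum_le_sum fun l _ => ch_int hq (fun ω => X ω l) W G ha hb le_rfl
      (fun ω ω' hω hω' e e' h => h1 ω ω' hω hω' e e' h l)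
      (fun ω ω' hω hω' => h2 ω ω' hω hω' l)
  rw [Finset.sum_const, Finset.card_univ, Fintype.card_fin, nsmul_eq_mul] at h5
  linarith

/-- A part of the coordinates of a vector of digits. -/
theorem ch_part {q : Ω → ℝ} (hq : IsLaw q) {m k X : ℕ} (D : Ω → Fin m → ℤ)
    (hD : ∀ ω, 0 < q ω → ∀ l, 0 ≤ D ω l ∧ D ω l < 2 ^ X) (σ : Fin k → Fin m)
    (hσ : Function.Injective σ) (Z : Ω → T) :
    CH q D Z ≤ CH q (fun ω a => D ω (σ a)) Z + ((m : ℝ) - k) * X * Real.log 2 := by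
  classical
  have h1 := CH_le_add hq.nonneg D (fun ω a => D ω (σ a)) Z
  obtain ⟨F, hF⟩ : ∃ F : (Fin k → ℤ) × T → Finset (Fin m → ℤ), F = fun w =>
      Fintype.piFinset (fun l => if h : ∃ a, σ a = l then {w.1 h.choose} else
        Finset.Ico (0 : ℤ) (2 ^ X)) := ⟨_, rfl⟩
  have h2 := CH_le_card hq.nonneg hq.sum_one D (fun ω => ((fun a => D ω (σ a)), Z ω)) F
    (fun ω hω => by
      rw [hF, Fintype.mem_piFinset]
      intro l
      by_cases h : ∃ a, σ a = l
      · rw [dif_pos h, Finset.mem_singleton]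
        simp only
        rw [h.choose_spec]
      · rw [dif_neg h, Finset.mem_Ico]
        exact hD ω hω l)
  have h3 : ∀ w, Real.log ((F w).card : ℝ) = ((m : ℝ) - k) * X * Real.log 2 := by
    intro w
    have e1 : (F w).card = (2 ^ X) ^ (m - k) := by
      rw [hF]
      simp only
      rw [Fintype.card_piFinset]
      have e2 : ∀ l : Fin m, (if h : ∃ a, σ a = l then ({w.1 h.choose} : Finset ℤ) else
          Finset.Ico (0 : ℤ) (2 ^ X)).card = if l ∈ Finset.univ.image σ then 1 else 2 ^ X := by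
        intro l
        by_cases h : ∃ a, σ a = l
        · rw [dif_pos h, if_pos (by
            obtain ⟨a, ha⟩ := h
            exact Finset.mem_image.2 ⟨a, Finset.mem_univ _, ha⟩), Finset.card_singleton]
        · rw [dif_neg h, if_neg (by
            intro h'
            obtain ⟨a, _, ha⟩ := Finset.mem_image.1 h'
            exact h ⟨a, ha⟩), Int.card_Ico]
          simp only [sub_zero]
          rw [show ((2 : ℤ) ^ X) = ((2 ^ X : ℕ) : ℤ) by push_cast; rfl, Int.toNat_natCast]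
      rw [Finset.prod_congr rfl fun l _ => e2 l, Finset.prod_ite, Finset.prod_const_one, one_mul,
        Finset.prod_const]
      congr 1
      have e3 : (Finset.univ.filter (fun l : Fin m => l ∉ Finset.univ.image σ)).card =
          m - k := by
        rw [Finset.filter_not, Finset.card_sdiff_of_subset (Finset.filter_subset _ _),
          Finset.card_univ, Fintype.card_fin]
        congr 1
        rw [Finset.filter_mem_eq_inter, Finset.univ_inter, Finset.card_image_of_injective _ hσ,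
          Finset.card_univ, Fintype.card_fin]
      exact e3
    have hkm : k ≤ m := by
      have := Fintype.card_le_of_injective σ hσ
      simpa using this
    rw [e1]
    push_cast
    rw [← pow_mul, Real.log_pow]
    push_cast [Nat.cast_sub hkm]
    ring
  simp only [h3] at h2
  rw [Ex_const hq.sum_one] at h2
  linarith

/-- Digits in `[0, 2 ^ X)`. -/
noncomputable def dq (X : ℕ) (x : ℝ) : ℤ := max 0 (min (2 ^ X - 1) ⌊2 ^ X * x⌋)

theorem dq_mem (X : ℕ) (x : ℝ) : 0 ≤ dq X x ∧ dq X x < 2 ^ X := by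
  have h : (0 : ℤ) < 2 ^ X := by positivity
  unfold dq
  refine ⟨le_max_left _ _, max_lt h ?_⟩
  exact (min_le_left _ _).trans_lt (by omega)

theorem dq_val {X : ℕ} {x : ℝ} (h0 : 0 ≤ x) (h1 : x ≤ 1) :
    (dq X x : ℝ) ≤ 2 ^ X * x ∧ 2 ^ X * x ≤ dq X x + 1 := by
  have hp : (0 : ℝ) < 2 ^ X := by positivity
  have hpz : (1 : ℤ) ≤ 2 ^ X := one_le_pow₀ (by norm_num)
  have hf0 : 0 ≤ ⌊(2 : ℝ) ^ X * x⌋ := Int.floor_nonneg.2 (by positivity)
  have e1 : dq X x = min (2 ^ X - 1) ⌊2 ^ X * x⌋ := by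
    unfold dq
    exact max_eq_right (le_min (by omega) hf0)
  rw [e1]
  have h2 := Int.floor_le ((2 : ℝ) ^ X * x)
  have h3 := Int.lt_floor_add_one ((2 : ℝ) ^ X * x)
  rcases le_total ((2 : ℤ) ^ X - 1) ⌊(2 : ℝ) ^ X * x⌋ with h | h
  · rw [min_eq_left h]
    have h4 : (((2 : ℤ) ^ X - 1 : ℤ) : ℝ) ≤ (⌊(2 : ℝ) ^ X * x⌋ : ℝ) := by exact_mod_cast h
    refine ⟨h4.trans h2, ?_⟩
    push_cast
    nlinarith
  · rw [min_eq_right h]
    exact ⟨h2, h3.le⟩

theorem dq_eq {X : ℕ} {x x' : ℝ} (h0 : 0 ≤ x) (h1 : x ≤ 1) (h0' : 0 ≤ x') (h1' : x' ≤ 1)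
    (h : dq X x = dq X x') : |x - x'| ≤ 1 / 2 ^ X := by
  have hp : (0 : ℝ) < 2 ^ X := by positivity
  have a := dq_val (X := X) h0 h1
  have b := dq_val (X := X) h0' h1'
  rw [h] at a
  have e : |x - x'| * 2 ^ X = |(x - x') * 2 ^ X| := by rw [abs_mul, abs_of_pos hp]
  rw [le_div_iff₀ hp, e, abs_le]
  constructor <;> nlinarith [a.1, a.2, b.1, b.2]

theorem dq_near {X : ℕ} {x x' δ : ℝ} (h : |x - x'| ≤ δ) :
    |((dq X x - dq X x' : ℤ) : ℝ)| ≤ 2 ^ X * δ + 1 := by
  have hp : (0 : ℝ) < 2 ^ X := by positivity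
  have h1 : |((⌊(2 : ℝ) ^ X * x⌋ - ⌊(2 : ℝ) ^ X * x'⌋ : ℤ) : ℝ)| ≤ 2 ^ X * δ + 1 := by
    have a1 := Int.floor_le ((2 : ℝ) ^ X * x)
    have a2 := Int.lt_floor_add_one ((2 : ℝ) ^ X * x)
    have b1 := Int.floor_le ((2 : ℝ) ^ X * x')
    have b2 := Int.lt_floor_add_one ((2 : ℝ) ^ X * x')
    rw [abs_le] at h
    have c1 := mul_le_mul_of_nonneg_left h.1 hp.le
    have c2 := mul_le_mul_of_nonneg_left h.2 hp.le
    push_cast
    rw [abs_le]
    constructor <;> nlinarith
  refine le_trans ?_ h1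
  have h2 : |dq X x - dq X x'| ≤ |⌊(2 : ℝ) ^ X * x⌋ - ⌊(2 : ℝ) ^ X * x'⌋| := by
    unfold dq
    generalize (2 : ℤ) ^ X - 1 = c
    generalize ⌊(2 : ℝ) ^ X * x⌋ = f
    generalize ⌊(2 : ℝ) ^ X * x'⌋ = f'
    have a1 := neg_abs_le (f - f')
    have a2 := le_abs_self (f - f')
    rw [abs_le]
    simp only [max_def, min_def]
    constructor <;> split_ifs <;> omega
  rw [← Int.cast_abs, ← Int.cast_abs]
  exact_mod_cast h2

/-- **Fullness of a part of the coordinates, in a near chart.** -/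
theorem full_part {q : Ω → ℝ} (hq : IsLaw q) {m k X : ℕ} (V : Ω → Fin m → ℤ)
    (ζ : Ω → Fin m → ℝ) (y : Ω → Fin k → ℝ) (σ : Fin k → Fin m) (hσ : Function.Injective σ)
    (Z : Ω → T) (E : Ω → Prop) {R κ : ℝ} (hR : 1 ≤ R)
    (hV : ∀ ω, 0 < q ω → ∀ l, |(V ω l : ℝ)| ≤ 2 ^ (X + 1))
    (hfull : m * X * Real.log 2 - κ ≤ CH q V Z)
    (hζ : ∀ ω, 0 < q ω → E ω → ∀ l, |ζ ω l| ≤ R)
    (hy : ∀ ω, 0 < q ω → E ω → ∀ a, |ζ ω (σ a) - y ω a| ≤ R / 2 ^ X)
    (hVζ : ∀ ω ω', 0 < q ω → 0 < q ω' → E ω → E ω' → Z ω = Z ω' → ∀ δ, 0 ≤ δ →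
      (∀ l, |ζ ω l - ζ ω' l| ≤ δ) → ∀ l, |((V ω l - V ω' l : ℤ) : ℝ)| ≤ R * 2 ^ X * δ + 1) :
    k * X * Real.log 2 ≤ CH q (fun ω a => dq X ((y ω a + R) / (2 * R))) Z + κ + 2 +
      m * (2 * Real.log R + 2) + k * 2 +
      (m + k) * ((X + 4) * Pb q (fun ω => ¬ E ω)) := by
  have hq0 := hq.nonneg
  have hR0 : 0 < R := by linarith
  have hX0 : (0 : ℝ) < 2 ^ X := by positivity
  have hl2 : 0 < Real.log 2 := Real.log_pos one_lt_two
  have hl2' : Real.log 2 ≤ 1 := by linarith [Real.log_two_lt_d9]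
  obtain ⟨b, hb⟩ : ∃ b : ℝ, b = Pb q (fun ω => ¬ E ω) := ⟨_, rfl⟩
  have hb0 : 0 ≤ b := by
    rw [hb]
    unfold Pb
    refine Finset.sum_nonneg fun ω _ => ?_
    split_ifs
    exacts [hq0 ω, le_rfl]
  obtain ⟨D, hD⟩ : ∃ D : Ω → Fin m → ℤ, D = fun ω l => dq X ((ζ ω l + R) / (2 * R)) := ⟨_, rfl⟩
  obtain ⟨Y, hY⟩ : ∃ Y : Ω → Fin k → ℤ, Y = fun ω a => dq X ((y ω a + R) / (2 * R)) := ⟨_, rfl⟩
  have hu : ∀ ω, 0 < q ω → E ω → ∀ l, 0 ≤ (ζ ω l + R) / (2 * R) ∧ (ζ ω l + R) / (2 * R) ≤ 1 := by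
    intro ω hω hE l
    have h := abs_le.1 (hζ ω hω hE l)
    constructor
    · exact div_nonneg (by linarith [h.1]) (by positivity)
    · rw [div_le_one (by positivity)]
      linarith [h.2]
  -- the first comparison
  have s1 := CH_le_add hq0 V D Z
  have s2 : CH q V (fun ω => (D ω, Z ω)) ≤ 1 + m * (Real.log (2 * (2 * R ^ 2 + 1) + 1) +
      Pb q (fun ω => ¬ E ω) * Real.log (2 * 2 ^ (X + 2) + 1)) := by
    refine ch_vec hq V _ E (by positivity) (by positivity) ?_ ?_
    · intro ω ω' hω hω' e e' h l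
      have h1 : D ω = D ω' := (Prod.ext_iff.1 h).1
      have h2 : Z ω = Z ω' := (Prod.ext_iff.1 h).2
      have h3 := hVζ ω ω' hω hω' e e' h2 (2 * R / 2 ^ X) (by positivity) (fun l => by
        have h4 : dq X ((ζ ω l + R) / (2 * R)) = dq X ((ζ ω' l + R) / (2 * R)) := by
          have := congrFun h1 l
          rw [hD] at this
          exact this
        have h5 := dq_eq (hu ω hω e l).1 (hu ω hω e l).2 (hu ω' hω' e' l).1 (hu ω' hω' e' l).2 h4
        have e1 : (ζ ω l + R) / (2 * R) - (ζ ω' l + R) / (2 * R) =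
            (ζ ω l - ζ ω' l) / (2 * R) := by
          field_simp
          ring
        rw [e1, abs_div, abs_of_pos (by positivity : (0 : ℝ) < 2 * R), div_le_iff₀ (by positivity),
          one_div, inv_mul_eq_div] at h5
        exact h5) l
      refine h3.trans (le_of_eq ?_)
      field_simp
    · intro ω ω' hω hω' l
      have h1 := hV ω hω l
      have h2 := hV ω' hω' l
      push_cast
      rw [abs_le] at h1 h2 ⊢
      have e1 : (2 : ℝ) ^ (X + 2) = 2 ^ (X + 1) + 2 ^ (X + 1) := by ring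
      rw [e1]
      constructor <;> linarith [h1.1, h1.2, h2.1, h2.2]
  have s3 := ch_part hq D (fun ω _ l => by rw [hD]; exact dq_mem _ _) σ hσ Z
  have s4 := CH_le_add hq0 (fun ω a => D ω (σ a)) Y Z
  have s5 : CH q (fun ω a => D ω (σ a)) (fun ω => (Y ω, Z ω)) ≤ 1 + k * (Real.log (2 * 3 + 1) +
      Pb q (fun ω => ¬ E ω) * Real.log (2 * 2 ^ X + 1)) := by
    refine ch_vec hq _ _ E (by norm_num) (by positivity) ?_ ?_
    · intro ω ω' hω hω' e e' h a
      have h1 : Y ω a = Y ω' a := congrFun (Prod.ext_iff.1 h).1 a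
      have key : ∀ ω, 0 < q ω → E ω → |((D ω (σ a) - Y ω a : ℤ) : ℝ)| ≤ 3 / 2 := by
        intro ω hω e
        rw [hD, hY]
        have h2 := hy ω hω e a
        have h3 : |(ζ ω (σ a) + R) / (2 * R) - (y ω a + R) / (2 * R)| ≤ 1 / (2 * 2 ^ X) := by
          have e1 : (ζ ω (σ a) + R) / (2 * R) - (y ω a + R) / (2 * R) =
              (ζ ω (σ a) - y ω a) / (2 * R) := by
            field_simp
            ring
          rw [e1, abs_div, abs_of_pos (by positivity : (0 : ℝ) < 2 * R),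
            div_le_iff₀ (by positivity)]
          refine h2.trans (le_of_eq ?_)
          field_simp
        have h4 := dq_near (X := X) h3
        refine h4.trans (le_of_eq ?_)
        field_simp
        norm_num
      have k1 := key ω hω e
      have k2 := key ω' hω' e'
      rw [h1] at k1
      push_cast at k1 k2 ⊢
      rw [abs_le] at k1 k2 ⊢
      constructor <;> linarith [k1.1, k1.2, k2.1, k2.2]
    · intro ω ω' _ _ a
      have h1 : 0 ≤ D ω (σ a) ∧ D ω (σ a) < 2 ^ X := by rw [hD]; exact dq_mem _ _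
      have h2 : 0 ≤ D ω' (σ a) ∧ D ω' (σ a) < 2 ^ X := by rw [hD]; exact dq_mem _ _
      have h3 : |D ω (σ a) - D ω' (σ a)| ≤ 2 ^ X := by
        rw [abs_le]
        constructor <;> omega
      rw [← Int.cast_abs]
      exact_mod_cast h3
  -- the numbers
  have n1 : Real.log (2 * (2 * R ^ 2 + 1) + 1) ≤ 2 * Real.log R + 2 := by
    have e1 : 2 * (2 * R ^ 2 + 1) + 1 ≤ 7 * R ^ 2 := by nlinarith
    refine (Real.log_le_log (by positivity) e1).trans ?_
    rw [Real.log_mul (by norm_num) (by positivity), Real.log_pow]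
    have e2 : Real.log 7 ≤ 2 := by
      have h1 : (7 : ℝ) ≤ Real.exp 2 := by
        have := Real.add_one_le_exp (1 : ℝ)
        have h3 := Real.exp_one_gt_d9
        have h4 : Real.exp 2 = Real.exp 1 * Real.exp 1 := by rw [← Real.exp_add]; norm_num
        rw [h4]
        nlinarith
      calc Real.log 7 ≤ Real.log (Real.exp 2) := Real.log_le_log (by norm_num) h1
        _ = 2 := Real.log_exp 2
    push_cast
    linarith
  have n2 : Real.log (2 * 3 + 1) ≤ 2 := by
    have h1 : (7 : ℝ) ≤ Real.exp 2 := by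
      have h3 := Real.exp_one_gt_d9
      have h4 : Real.exp 2 = Real.exp 1 * Real.exp 1 := by rw [← Real.exp_add]; norm_num
      rw [h4]
      nlinarith
    have e1 : (2 * 3 + 1 : ℝ) = 7 := by norm_num
    rw [e1]
    calc Real.log 7 ≤ Real.log (Real.exp 2) := Real.log_le_log (by norm_num) h1
      _ = 2 := Real.log_exp 2
  have n3 : ∀ N : ℕ, Real.log (2 * 2 ^ N + 1) ≤ N + 2 := by
    intro N
    have e1 : (2 : ℝ) * 2 ^ N + 1 ≤ 2 ^ (N + 2) := by
      have : (1 : ℝ) ≤ 2 ^ N := one_le_pow₀ (by norm_num)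
      have e2 : (2 : ℝ) ^ (N + 2) = 2 * 2 ^ N + 2 * 2 ^ N := by ring
      linarith
    refine (Real.log_le_log (by positivity) e1).trans ?_
    rw [Real.log_pow]
    push_cast
    exact mul_le_of_le_one_right (by positivity) hl2'
  have n4 := n3 (X + 2)
  have n5 := n3 X
  rw [← hb] at s2 s5 ⊢
  have hm : (0 : ℝ) ≤ m := Nat.cast_nonneg _
  have hk : (0 : ℝ) ≤ k := Nat.cast_nonneg _
  have t2 : (m : ℝ) * (Real.log (2 * (2 * R ^ 2 + 1) + 1) + b * Real.log (2 * 2 ^ (X + 2) + 1)) ≤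
      m * (2 * Real.log R + 2) + m * ((X + 4) * b) := by
    rw [← mul_add]
    refine mul_le_mul_of_nonneg_left ?_ hm
    have := mul_le_mul_of_nonneg_left n4 hb0
    push_cast at this
    linarith
  have t5 : (k : ℝ) * (Real.log (2 * 3 + 1) + b * Real.log (2 * 2 ^ X + 1)) ≤
      k * 2 + k * ((X + 4) * b) := by
    rw [← mul_add]
    refine mul_le_mul_of_nonneg_left ?_ hk
    have := mul_le_mul_of_nonneg_left n5 hb0
    linarith
  have e1 : ((m : ℝ) - k) * X * Real.log 2 = m * X * Real.log 2 - k * X * Real.log 2 := by ring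
  have e2 : ((m : ℝ) + k) * ((X + 4) * b) = m * ((X + 4) * b) + k * ((X + 4) * b) := by ring
  rw [e1] at s3
  rw [e2]
  have e3 : CH q Y Z = CH q (fun ω a => dq X ((y ω a + R) / (2 * R))) Z := by rw [hY]
  linarith

end Pool.P470
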