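import Pool.Agent.H14.P4.Stm
import Pool.Agent.H70.P4.Ev

/-!
# P4: the slow coordinates are full
-/

set_option autoImplicit false

namespace Pool.P4

open Finset Real MvPolynomial
open Pool.Agent.H49.Ent Pool.Agent.H32.Dense Pool.STK Pool.STAT Pool.MIC.Frm
open Pool.BFL (Pb)

/-- **(YF)** -/
theorem yf_stmt : YFStmt := by
  classical
  intro n K K' c k C₁ C
  refine ⟨3 * ((n + k + 1 : ℝ) * (2 * |C| + 8)), by positivity, ?_⟩
  intro D J a₀ w₀ z M w i j r r' r'' y X lam gam κ q E P S ys gs hy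
  show (k : ℝ) * X * Real.log 2 ≤ CH q (yv (k := k) D J w z i j r X C P ys) (cb D J w i j r) +
    err (3 * ((n + k + 1 : ℝ) * (2 * |C| + 8))) κ z X (Pb q (fun ω => ¬ E ω))
  obtain ⟨x, hX, hx⟩ := hy.Xz
  have hq := hy.ok.isLaw
  have hq0 := hq.nonneg
  have hi : i ≤ M := by have := hy.i2; omega
  have hj : j ≤ M := by have := hy.j2; omega
  have hC1 := hy.Cg
  have hC0 : 0 ≤ C := by linarith
  have hz1 : (1 : ℝ) ≤ z := by exact_mod_cast hy.z1
  have hz0 : (0 : ℝ) ≤ z := by linarith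
  have hX0 : (0 : ℝ) < 2 ^ X := by positivity
  obtain ⟨R, hR⟩ : ∃ R : ℝ, R = Ry z C := ⟨_, rfl⟩
  have hRe : R = exp (C * z) := hR
  have hR1 : 1 ≤ R := by
    rw [hRe]
    exact Real.one_le_exp (by positivity)
  have hsl : ∀ a, 1 ≤ ys a ∧ ys a < n := fun a => ⟨(hy.ys_sl a).1, (hy.ys_sl a).2.1⟩
  obtain ⟨σ, hσ⟩ : ∃ σ : Fin k → Fin (n - 1), σ = fun a => ⟨ys a - 1, by
    have := hsl a
    omega⟩ := ⟨_, rfl⟩
  have hσv : ∀ a, ((σ a : Fin (n - 1)) : ℕ) + 1 = ys a := by
    intro a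
    rw [hσ]
    have := hsl a
    simp only
    omega
  have hσi : Function.Injective σ := by
    intro a b h
    refine hy.ys_in ?_
    rw [← hσv a, ← hσv b, h]
  have hτ : exp (C * z) / 2 ^ (y * z) ≤ R / 2 ^ X := by
    have h1 := hy.yX
    rw [div_le_div_iff₀ (by positivity) hX0]
    have h2 : (2 : ℝ) ^ (y * z) ≤ R * 2 ^ (y * z) := le_mul_of_one_le_left (by positivity) hR1
    linarith
  have hxr := hy.Xr x hX
  have hll := hy.llc i j r x hy.i0 hy.j1 (by omega) hxr
  rw [← hX] at hll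
  have hxz : (x : ℝ) * z = X := by
    rw [hX]
    push_cast
    ring
  rw [hxz] at hll
  have key := Pool.P470.full_part hq (m := n - 1) (k := k) (X := X) (D.vd n i j X)
    (fun ω l => ze D i j r P ω (l + 1)) (fun ω a => z0 D J w i j r P ω (ys a)) σ hσi
    (fun ω => (D.c (i - 1) (j - r) ω, (D.c i j ω, D.T ω))) E hR1 (κ := C * z)
    (by
      intro ω hω l
      have h1 := hy.ok.pos i hi j hj ω hω (l + 1) (by omega) (by have := l.2; omega)
      have h2 : |(2 : ℝ) ^ D.g i j (l + 1) * D.sh i j ω (l + 1)| ≤ 1 := by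
        rw [abs_mul, abs_of_pos (by positivity)]
        rw [le_div_iff₀ (by positivity)] at h1
        linarith
      have h3 : (2 : ℝ) ^ (D.g i j (l + 1) + X) * D.sh i j ω (l + 1) =
          2 ^ X * (2 ^ D.g i j (l + 1) * D.sh i j ω (l + 1)) := by ring
      unfold NDat2.vd
      rw [h3]
      have a1 := Int.floor_le ((2 : ℝ) ^ X * (2 ^ D.g i j (l + 1) * D.sh i j ω (l + 1)))
      have a2 := Int.lt_floor_add_one
        ((2 : ℝ) ^ X * (2 ^ D.g i j (l + 1) * D.sh i j ω (l + 1)))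
      rw [abs_le] at h2
      have b1 := mul_le_mul_of_nonneg_left h2.1 hX0.le
      have b2 := mul_le_mul_of_nonneg_left h2.2 hX0.le
      have hp : (1 : ℝ) ≤ 2 ^ X := one_le_pow₀ (by norm_num)
      have e1 : (2 : ℝ) ^ (X + 1) = 2 ^ X + 2 ^ X := by ring
      rw [e1, abs_le]
      constructor <;> linarith)
    (by
      refine le_trans (le_of_eq ?_) hll
      rfl)
    (by
      intro ω hω hE l
      have := hy.geo.bz ω hω hE (l + 1) (by omega) (by have := l.2; omega)
      rw [hRe]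
      exact this)
    (by
      intro ω hω hE a
      have h1 := hy.geo.slow ω hω hE (ys a) (hy.ys_sl a) w hy.w1 hy.w2
      rw [hσv]
      exact h1.trans hτ)
    (by
      intro ω ω' hω hω' hE hE' hZ δ hδ hd l
      have z1 : D.c (i - 1) (j - r) ω = D.c (i - 1) (j - r) ω' := (Prod.ext_iff.1 hZ).1
      have z2 : D.c i j ω = D.c i j ω' := (Prod.ext_iff.1 (Prod.ext_iff.1 hZ).2).1
      have z3 : D.T ω = D.T ω' := (Prod.ext_iff.1 (Prod.ext_iff.1 hZ).2).2
      have h1 := hy.geo.toV ω ω' hω hω' hE hE' (by unfold bb; rw [z1, z2]) z3 (l + 1) (by omega)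
        (by have := l.2; omega) δ hδ (fun k' hk' hk'' => by
          have h2 := hd ⟨k' - 1, by have := l.2; omega⟩
          have e1 : k' - 1 + 1 = k' := by omega
          simp only [e1] at h2
          exact h2)
      have h3 : ∀ ω : D.Ω, (2 : ℝ) ^ (D.g i j (l + 1) + X) * D.sh i j ω (l + 1) =
          2 ^ X * (2 ^ D.g i j (l + 1) * D.sh i j ω (l + 1)) := fun ω => by ring
      unfold NDat2.vd
      rw [h3, h3]
      have a1 := Int.floor_le ((2 : ℝ) ^ X * (2 ^ D.g i j (l + 1) * D.sh i j ω (l + 1)))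
      have a2 := Int.lt_floor_add_one
        ((2 : ℝ) ^ X * (2 ^ D.g i j (l + 1) * D.sh i j ω (l + 1)))
      have b1 := Int.floor_le ((2 : ℝ) ^ X * (2 ^ D.g i j (l + 1) * D.sh i j ω' (l + 1)))
      have b2 := Int.lt_floor_add_one
        ((2 : ℝ) ^ X * (2 ^ D.g i j (l + 1) * D.sh i j ω' (l + 1)))
      rw [← hRe, abs_le] at h1
      have c1 := mul_le_mul_of_nonneg_left h1.1 hX0.le
      have c2 := mul_le_mul_of_nonneg_left h1.2 hX0.le
      push_cast
      rw [abs_le]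
      constructor <;> nlinarith)
  -- the context
  have hcond : CH q (fun ω a => Pool.P470.dq X ((z0 D J w i j r P ω (ys a) + R) / (2 * R)))
      (fun ω => (D.c (i - 1) (j - r) ω, (D.c i j ω, D.T ω))) ≤
      CH q (yv (k := k) D J w z i j r X C P ys) (cb D J w i j r) := by
    have e1 : (fun ω (a : Fin k) => Pool.P470.dq X ((z0 D J w i j r P ω (ys a) + R) / (2 * R))) =
        yv (k := k) D J w z i j r X C P ys := by
      funext ω a
      unfold yv dgp Pool.P470.dq
      rw [hR]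
    rw [e1]
    refine CH_mono_cond hq0 ?_
    intro ω ω' _ _ h
    have z1 : D.c (i - 1) (j - r) ω = D.c (i - 1) (j - r) ω' := (Prod.ext_iff.1 h).1
    have z2 : D.c i j ω = D.c i j ω' := (Prod.ext_iff.1 (Prod.ext_iff.1 h).2).1
    have z3 : D.T ω = D.T ω' := (Prod.ext_iff.1 (Prod.ext_iff.1 h).2).2
    unfold cb bb
    rw [z1, z2, z3]
  -- the numbers
  obtain ⟨b, hb⟩ : ∃ b : ℝ, b = Pb q (fun ω => ¬ E ω) := ⟨_, rfl⟩
  have hb0 : 0 ≤ b := by
    rw [hb]
    unfold Pb
    refine Finset.sum_nonneg fun ω _ => ?_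
    split_ifs
    exacts [hq0 ω, le_rfl]
  have hb1 : b ≤ 1 := by
    rw [hb, ← hq.sum_one]
    unfold Pb
    refine Finset.sum_le_sum fun ω _ => ?_
    split_ifs
    exacts [le_rfl, hq0 ω]
  rw [← hb] at key ⊢
  have hlR : Real.log R = C * z := by rw [hRe, Real.log_exp]
  rw [hlR] at key
  have hn0 : (0 : ℝ) ≤ n := Nat.cast_nonneg _
  have hk0 : (0 : ℝ) ≤ k := Nat.cast_nonneg _
  have hXr : (0 : ℝ) ≤ X := Nat.cast_nonneg _
  have hn1 : ((n - 1 : ℕ) : ℝ) ≤ n := by exact_mod_cast Nat.sub_le _ _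
  have hκ0 := hy.κ0
  have habs : |C| = C := abs_of_nonneg hC0
  unfold err
  rw [habs]
  have t1 : ((n - 1 : ℕ) : ℝ) * (2 * (C * z) + 2) ≤ n * (2 * (C * z) + 2) :=
    mul_le_mul_of_nonneg_right hn1 (by positivity)
  have t2 : (((n - 1 : ℕ) : ℝ) + k) * ((X + 4) * b) ≤ (n + k) * ((X + 4) * b) :=
    mul_le_mul_of_nonneg_right (by linarith) (by positivity)
  have t3 : C * z + 2 + n * (2 * (C * z) + 2) + k * 2 + (n + k) * ((X + 4) * b) ≤
      3 * ((n + k + 1 : ℝ) * (2 * C + 8)) * ((1 + κ) * z + X * b) := by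
    have u1 : C * z ≤ (n + k + 1 : ℝ) * (2 * C + 8) * ((1 + κ) * z + X * b) := by
      have v1 : C ≤ (n + k + 1 : ℝ) * (2 * C + 8) := by
        have v0 : 0 ≤ (n + k : ℝ) * (2 * C + 8) := by positivity
        nlinarith
      have v2 : (z : ℝ) ≤ (1 + κ) * z + X * b := by
        nlinarith [mul_nonneg hXr hb0, mul_nonneg hκ0 hz0]
      exact mul_le_mul v1 v2 hz0 (by positivity)
    have u2 : 2 + n * (2 * (C * z) + 2) + k * 2 ≤
        (n + k + 1 : ℝ) * (2 * C + 8) * ((1 + κ) * z + X * b) := by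
      have v1 : 2 + n * (2 * (C * z) + 2) + k * 2 ≤ (n + k + 1 : ℝ) * (2 * C + 8) * z := by
        have w1 : (n + k + 1 : ℝ) * 2 ≤ (n + k + 1 : ℝ) * (8 * z) :=
          mul_le_mul_of_nonneg_left (by linarith) (by positivity)
        have w2 : (n : ℝ) * (2 * (C * z)) ≤ (n + k + 1 : ℝ) * (2 * (C * z)) :=
          mul_le_mul_of_nonneg_right (by linarith) (by positivity)
        nlinarith
      have v2 : (z : ℝ) ≤ (1 + κ) * z + X * b := by
        nlinarith [mul_nonneg hXr hb0, mul_nonneg hκ0 hz0]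
      exact v1.trans (mul_le_mul_of_nonneg_left v2 (by positivity))
    have u3 : (n + k : ℝ) * ((X + 4) * b) ≤
        (n + k + 1 : ℝ) * (2 * C + 8) * ((1 + κ) * z + X * b) := by
      have v1 : (X + 4 : ℝ) * b ≤ 4 * ((1 + κ) * z + X * b) := by
        nlinarith [mul_nonneg hXr hb0, mul_nonneg hκ0 hz0]
      have v2 : (n + k : ℝ) * ((X + 4) * b) ≤ (n + k + 1 : ℝ) * (4 * ((1 + κ) * z + X * b)) :=
        mul_le_mul (by linarith) v1 (by positivity) (by positivity)
      have v3 : (n + k + 1 : ℝ) * (4 * ((1 + κ) * z + X * b)) ≤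
          (n + k + 1 : ℝ) * (2 * C + 8) * ((1 + κ) * z + X * b) := by
        rw [mul_assoc]
        refine mul_le_mul_of_nonneg_left ?_ (by positivity)
        refine mul_le_mul_of_nonneg_right (by linarith) (by positivity)
      exact v2.trans v3
    nlinarith
  linarith

end Pool.P4
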