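import Pool.Agent.H52.P4.Rcd
import Pool.Agent.H52.P4.Own
import Pool.Agent.H98.P4.Dch

/-!
# P4: the visible chart of a cell

The visible frame `vfr` of the record `rcd` has the properties `Dch`.
-/

set_option autoImplicit false

namespace Pool.P4

open Finset Real MvPolynomial
open Pool.Agent.H49.Ent Pool.Agent.H32.Dense Pool.STK Pool.STAT Pool.MIC.Frm Pool.FRM
open Pool.MIC.Fru (gw nat_gw nat_gw0 atT_tri atT_deg)

/-- The height of the exact point over the visible frame. -/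
noncomputable def zdv (D : NDat2) (i j r a : ℕ) (E : D.Ω → Prop) (P : D.Γ × D.Γ → ℕ → PN)
    (ω : D.Ω) (l : ℕ) : ℝ :=
  nat (D.g i j) (vfr D i j r a E P (rcd D i j r a ω)) (D.X ω) l

/-- Two points over two near systems. -/
theorem dif_tr (n K : ℕ) (c b : ℝ) (hc : 0 ≤ c) (hb : 0 ≤ b) : ∃ c' : ℝ, 0 ≤ c' ∧
    ∀ (z : ℝ) (d : ℕ → ℕ) (A B : ℕ → PN), 1 ≤ z → Tg K n A → Tg K n B →
    Sp d A B n (exp (c * z)) → ∀ l ≤ n, ∀ x x' : ℕ → ℝ, Bx d A l (exp (b * z)) x →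
      Bx d A l (exp (b * z)) x' → ∀ δ : ℝ, 0 ≤ δ → (∀ k ≤ l, |nat d A x k - nat d A x' k| ≤ δ) →
      |nat d B x l - nat d B x' l| ≤ exp (c' * z) * δ := by
  obtain ⟨c₁, h1, h⟩ := sp_lip n K c b hc hb
  refine ⟨|(0 : ℝ)| + |c₁| + 1, by positivity, ?_⟩
  intro z d A B hz hA hB hS l hl x x' hx hx' δ hδ hd
  have key := h z d A B hz hA hB hS l hl x x' hx hx' δ hδ fun k hk => hd k hk.le
  have hp : (0 : ℝ) < 2 ^ d l := by positivity
  rw [nat_change d A B x, nat_change d A B x']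
  have e : nat d A x l - 2 ^ d l * (eval x (B l) - eval x (A l)) -
      (nat d A x' l - 2 ^ d l * (eval x' (B l) - eval x' (A l))) =
      (nat d A x l - nat d A x' l) - 2 ^ d l * ((eval x (B l) - eval x (A l)) -
        (eval x' (B l) - eval x' (A l))) := by ring
  rw [e]
  have e2 : |2 ^ d l * ((eval x (B l) - eval x (A l)) - (eval x' (B l) - eval x' (A l)))| ≤
      exp (c₁ * z) * δ := by
    rw [abs_mul, abs_of_pos hp]
    rw [le_div_iff₀ hp] at key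
    linarith
  have e3 := hd l le_rfl
  have e4 := ex_add (c := 0) (c' := c₁) hz
  rw [zero_mul, exp_zero] at e4
  calc |nat d A x l - nat d A x' l - 2 ^ d l * ((eval x (B l) - eval x (A l)) -
        (eval x' (B l) - eval x' (A l)))| ≤ δ + exp (c₁ * z) * δ := (abs_sub _ _).trans
          (add_le_add e3 e2)
    _ = (1 + exp (c₁ * z)) * δ := by ring
    _ ≤ _ := mul_le_mul_of_nonneg_right e4 hδ

/-- **The visible chart.** -/
theorem dch (n K : ℕ) (C : ℝ) (hC : 0 ≤ C) : ∃ Cd : ℝ, 1 ≤ Cd ∧ C ≤ Cd ∧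
    ∀ (D : NDat2) (K₁ K' J a₀ w₀ z M i j r a X : ℕ) (lam gam : ℕ → ℝ) (κ C₁ : ℝ) (q : D.Ω → ℝ)
      (E : D.Ω → Prop) (P : D.Γ × D.Γ → ℕ → PN),
      D.Ok2 n K₁ J a₀ w₀ z M lam gam κ C₁ q → K₁ ≤ K → K' ≤ K → 1 ≤ z → i ≤ M → j ≤ M →
      (∀ ω, E ω → 0 < q ω ∧ FrP D n K' z i j r C (P (bb D i j r ω)) ω) →
      Dch D n z i j r X Cd q E P (rcd D i j r a) (zdv D i j r a E P) := by
  obtain ⟨c₁, h1, hrs⟩ := rad_sp n K C hC
  obtain ⟨c₂, h2, hrt⟩ := rad_two n K C hC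
  obtain ⟨c₃, h3, hsy⟩ := sp_symm n K c₁ h1
  obtain ⟨c₄, h4, hbx⟩ := sp_box n K c₁ 0 h1 le_rfl
  have h3' : 0 ≤ c₃ := h1.trans h3
  -- from the chart `V` or `P` to `Ψ`
  obtain ⟨c₅, h5, d5⟩ := dif_tr n K c₁ c₄ h1 h4
  -- from `Ψ` to `V`
  obtain ⟨c₆, h6, d6⟩ := dif_tr n K c₃ 0 h3' le_rfl
  -- from `V` to `P` and back
  obtain ⟨c₇, h7, d7⟩ := dif_tr n K c₂ c₄ h2 h4
  obtain ⟨Cd, hCd⟩ : ∃ Cd : ℝ, Cd = 1 + C + c₄ + c₅ + c₆ + c₇ := ⟨_, rfl⟩
  refine ⟨Cd, by linarith, by linarith, ?_⟩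
  intro D K₁ K' J a₀ w₀ z M i j r a X lam gam κ C₁ q E P hO hK₁ hK' hz hi hj hE
  have hzr : (1 : ℝ) ≤ z := by exact_mod_cast hz
  obtain ⟨d, hd⟩ : ∃ d : ℕ → ℕ, d = gw (a₀ + i * z) (D.g i j) := ⟨_, rfl⟩
  have hnat : ∀ (Q : ℕ → PN) (x : ℕ → ℝ) (t : ℝ) {k : ℕ}, 1 ≤ k →
      nat d (atT t Q) x k = nat (D.g i j) Q x k := fun Q x t k hk => by
    rw [hd]
    exact nat_gw' _ _ _ _ _ hk
  have hTΨ : ∀ ω, Tg K n (D.Ψ i j ω) := fun ω =>
    ⟨hO.G_tri i j _, fun l _ => (hO.G_deg i j _ l).trans hK₁⟩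
  -- the frame of a sample of `E`
  have fr : ∀ ω, E ω → Tg K n (P (bb D i j r ω)) ∧
      Sp (D.g i j) (P (bb D i j r ω)) (D.Φ i j ω) n (exp (C * z)) := fun ω h =>
    ⟨frp_tg (hE ω h).2 hK', (frp_sp hO hK₁ (hE ω h).2 hK' le_rfl).1⟩
  have sx : ∀ ω ω', D.T ω = D.T ω' → D.X ω 0 = D.X ω' 0 := fun ω ω' h => by
    rw [hO.X_zero, hO.X_zero, h]
  have sΨ : ∀ ω ω', D.s i j ω = D.s i j ω' → D.Ψ i j ω = D.Ψ i j ω' := fun ω ω' h => by
    unfold NDat2.Ψ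
    rw [h]
  -- the closed frame of `ω''` and the visible label of `ω`
  have f1 : ∀ ω ω'', E ω'' → D.T ω'' = D.T ω → D.s i j ω'' = D.s i j ω →
      Sp d (atT (D.X ω 0) (P (bb D i j r ω''))) (atT (D.X ω 0) (D.Ψ i j ω)) n (exp (c₁ * z)) := by
    intro ω ω'' h hT hs
    have := hrs D K₁ J a₀ w₀ z M lam gam κ C₁ q hO hK₁ hz i hi j hj ω'' (hE ω'' h).1 _
      (fr ω'' h).1 (fr ω'' h).2
    rw [← hd, sx ω'' ω hT, sΨ ω'' ω hs] at this
    exact this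
  -- the boxes
  have bΨ : ∀ ω ω', 0 < q ω' → D.T ω = D.T ω' → D.s i j ω = D.s i j ω' →
      Bx d (atT (D.X ω 0) (D.Ψ i j ω)) (n + 1) (exp (0 * z)) (D.X ω') := by
    intro ω ω' hω' hT hs k hk
    rw [zero_mul, exp_zero]
    rcases Nat.eq_zero_or_pos k with h0 | h0
    · subst h0
      rw [hd, nat_gw0, sx ω ω' hT, sub_self, mul_zero, abs_zero]
      exact zero_le_one
    · rw [hnat _ _ _ h0, sΨ ω ω' hs]
      have := hO.pos i hi j hj ω' hω' k h0 (by omega)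
      unfold nat
      unfold NDat2.sh at this
      rw [abs_mul, abs_of_pos (by positivity : (0 : ℝ) < 2 ^ D.g i j k)]
      rw [le_div_iff₀ (by positivity)] at this
      linarith
  have bP : ∀ ω ω' ω'', 0 < q ω' → E ω'' → D.T ω'' = D.T ω → D.s i j ω'' = D.s i j ω →
      D.T ω = D.T ω' → D.s i j ω = D.s i j ω' →
      Bx d (atT (D.X ω 0) (P (bb D i j r ω''))) (n + 1) (exp (c₄ * z)) (D.X ω') := by
    intro ω ω' ω'' hω' hE'' hT hs hT' hs'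
    exact hbx z d _ _ hzr (tg_atT (fr ω'' hE'').1 _) (tg_atT (hTΨ ω) _) (f1 ω ω'' hE'' hT hs)
      (n + 1) le_rfl _ (bΨ ω ω' hω' hT' hs')
  -- the time
  have n0 : ∀ (ω ω' : D.Ω) (A : ℕ → PN), D.T ω = D.T ω' →
      |nat d (atT (D.X ω 0) A) (D.X ω) 0 - nat d (atT (D.X ω 0) A) (D.X ω') 0| = 0 := by
    intro ω ω' A hT
    rw [hd, nat_gw0, nat_gw0, sx ω ω' hT, sub_self, abs_zero]
  have mono : ∀ {c : ℝ}, c ≤ Cd → ∀ δ : ℝ, 0 ≤ δ → exp (c * z) * δ ≤ exp (Cd * z) * δ :=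
    fun hc δ hδ => mul_le_mul_of_nonneg_right (ex_mono hc hzr) hδ
  have hrec : ∀ ω ω', rcd D i j r a ω = rcd D i j r a ω' →
      D.T ω = D.T ω' ∧ D.s i j ω = D.s i j ω' := by
    intro ω ω' h
    simp only [rcd, Prod.mk.injEq] at h
    exact ⟨h.1, h.2.1⟩
  refine ⟨?_, ?_, ?_, ?_, ?_, ?_, ?_⟩
  · intro ω ω' hω hω' hb hT
    exact rcd_det hO hi hj r a ω ω' hω hω' (Prod.ext hb hT)
  · intro ω ω' _ _ h
    exact hrec ω ω' h
  · intro ω hω hEω l hl1 hln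
    obtain ⟨ω'', hE'', hr, hV⟩ := vfr_ex i j r a P hEω
    obtain ⟨r1, r2⟩ := hrec _ _ hr
    have := bP ω ω ω'' hω hE'' r1 r2 rfl rfl l (by omega)
    unfold zdv
    rw [hV]
    rw [hnat _ _ _ hl1] at this
    exact this.trans (ex_mono (by linarith) hzr)
  · intro ω ω' hω hω' hEω hEω' hs l hl1 hln δ hδ hk
    obtain ⟨t1, t2⟩ := hrec _ _ hs
    obtain ⟨ω'', hE'', hr, hV⟩ := vfr_ex i j r a P hEω
    obtain ⟨r1, r2⟩ := hrec _ _ hr
    have key := d5 z d _ _ hzr (tg_atT (fr ω'' hE'').1 (D.X ω 0)) (tg_atT (hTΨ ω) (D.X ω 0))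
      (f1 ω ω'' hE'' r1 r2) l hln (D.X ω) (D.X ω')
      ((bP ω ω ω'' hω hE'' r1 r2 rfl rfl).mono (by omega) le_rfl)
      ((bP ω ω' ω'' hω' hE'' r1 r2 t1 t2).mono (by omega) le_rfl) δ hδ (by
        intro k hkl
        rcases Nat.eq_zero_or_pos k with h0 | h0
        · subst h0
          rw [n0 ω ω' _ t1]
          exact hδ
        · rw [hnat _ _ _ h0, hnat _ _ _ h0]
          have := hk k h0 hkl
          unfold zdv at this
          rw [← hs, hV] at this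
          exact this)
    rw [hnat _ _ _ hl1, hnat _ _ _ hl1] at key
    have e1 : D.Ψ i j ω' = D.Ψ i j ω := (sΨ ω ω' t2).symm
    unfold NDat2.sh
    rw [e1]
    exact key.trans (mono (by linarith) δ hδ)
  · intro ω ω' hω hω' hEω hEω' hs l hl1 hln δ hδ hk
    obtain ⟨t1, t2⟩ := hrec _ _ hs
    obtain ⟨ω'', hE'', hr, hV⟩ := vfr_ex i j r a P hEω
    obtain ⟨r1, r2⟩ := hrec _ _ hr
    have key := d6 z d _ _ hzr (tg_atT (hTΨ ω) (D.X ω 0)) (tg_atT (fr ω'' hE'').1 (D.X ω 0))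
      (hsy z d _ _ hzr (tg_atT (fr ω'' hE'').1 _) (tg_atT (hTΨ ω) _) (f1 ω ω'' hE'' r1 r2))
      l hln (D.X ω) (D.X ω')
      ((bΨ ω ω hω rfl rfl).mono (by omega) le_rfl)
      ((bΨ ω ω' hω' t1 t2).mono (by omega) le_rfl) δ hδ (by
        intro k hkl
        rcases Nat.eq_zero_or_pos k with h0 | h0
        · subst h0
          rw [n0 ω ω' _ t1]
          exact hδ
        · rw [hnat _ _ _ h0, hnat _ _ _ h0]
          have := hk k h0 hkl
          have e1 : D.Ψ i j ω' = D.Ψ i j ω := (sΨ ω ω' t2).symm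
          unfold NDat2.sh at this
          rw [e1] at this
          exact this)
    rw [hnat _ _ _ hl1, hnat _ _ _ hl1] at key
    unfold zdv
    rw [← hs, hV]
    exact key.trans (mono (by linarith) δ hδ)
  · intro ω ω' hω hω' hEω hEω' hb hT l hl1 hln δ hδX hk
    have hδ : 0 ≤ δ := le_trans (by positivity) hδX
    have hs : rcd D i j r a ω = rcd D i j r a ω' :=
      rcd_det hO hi hj r a ω ω' hω hω' (Prod.ext hb hT)
    obtain ⟨t1, t2⟩ := hrec _ _ hs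
    obtain ⟨ω'', hE'', hr, hV⟩ := vfr_ex i j r a P hEω
    obtain ⟨r1, r2⟩ := hrec _ _ hr
    have hsp := hrt D K₁ J a₀ w₀ z M lam gam κ C₁ q hO hK₁ hz i hi j hj ω'' ω (hE ω'' hE'').1 hω
      r1 r2 _ _ (fr ω'' hE'').1 (fr ω hEω).1 (fr ω'' hE'').2 (fr ω hEω).2
    rw [← hd, sx ω'' ω r1] at hsp
    have key := d7 z d _ _ hzr (tg_atT (fr ω'' hE'').1 (D.X ω 0))
      (tg_atT (fr ω hEω).1 (D.X ω 0)) hsp l hln (D.X ω) (D.X ω')
      ((bP ω ω ω'' hω hE'' r1 r2 rfl rfl).mono (by omega) le_rfl)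
      ((bP ω ω' ω'' hω' hE'' r1 r2 t1 t2).mono (by omega) le_rfl) δ hδ (by
        intro k hkl
        rcases Nat.eq_zero_or_pos k with h0 | h0
        · subst h0
          rw [n0 ω ω' _ t1]
          exact hδ
        · rw [hnat _ _ _ h0, hnat _ _ _ h0]
          have := hk k h0 hkl
          unfold zdv at this
          rw [← hs, hV] at this
          exact this)
    rw [hnat _ _ _ hl1, hnat _ _ _ hl1] at key
    unfold ze
    rw [← hb]
    exact key.trans (mono (by linarith) δ hδ)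
  · intro ω ω' hω hω' hEω hEω' hb hT l hl1 hln δ hδX hk
    have hδ : 0 ≤ δ := le_trans (by positivity) hδX
    have hs : rcd D i j r a ω = rcd D i j r a ω' :=
      rcd_det hO hi hj r a ω ω' hω hω' (Prod.ext hb hT)
    obtain ⟨t1, t2⟩ := hrec _ _ hs
    obtain ⟨ω'', hE'', hr, hV⟩ := vfr_ex i j r a P hEω
    obtain ⟨r1, r2⟩ := hrec _ _ hr
    have hsp := hrt D K₁ J a₀ w₀ z M lam gam κ C₁ q hO hK₁ hz i hi j hj ω ω'' hω (hE ω'' hE'').1
      r1.symm r2.symm _ _ (fr ω hEω).1 (fr ω'' hE'').1 (fr ω hEω).2 (fr ω'' hE'').2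
    rw [← hd] at hsp
    have key := d7 z d _ _ hzr (tg_atT (fr ω hEω).1 (D.X ω 0))
      (tg_atT (fr ω'' hE'').1 (D.X ω 0)) hsp l hln (D.X ω) (D.X ω')
      ((bP ω ω ω hω hEω rfl rfl rfl rfl).mono (by omega) le_rfl)
      ((bP ω ω' ω hω' hEω rfl rfl t1 t2).mono (by omega) le_rfl) δ hδ (by
        intro k hkl
        rcases Nat.eq_zero_or_pos k with h0 | h0
        · subst h0
          rw [n0 ω ω' _ t1]
          exact hδ
        · rw [hnat _ _ _ h0, hnat _ _ _ h0]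
          have := hk k h0 hkl
          unfold ze at this
          rw [← hb] at this
          exact this)
    rw [hnat _ _ _ hl1, hnat _ _ _ hl1] at key
    unfold zdv
    rw [← hs, hV]
    exact key.trans (mono (by linarith) δ hδ)

/-- The visible chart, from the hypotheses of the entropic pieces. -/
theorem Hyp.dch (n K K' : ℕ) (C : ℝ) (hC : 0 ≤ C) : ∃ Cd : ℝ, 1 ≤ Cd ∧ C ≤ Cd ∧
    ∀ (D : NDat2) (J a₀ w₀ z M w i j r r' r'' y X : ℕ) (lam gam : ℕ → ℝ) (κ C₁ : ℝ)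
      (q : D.Ω → ℝ) (E : D.Ω → Prop) (P : D.Γ × D.Γ → ℕ → PN) (S : D.Ω → ℕ → ℕ → ℝ) (c k : ℕ)
      (ys : Fin k → ℕ) (gs : Fin c → ℕ) (a : ℕ),
      Hyp D n K K' J a₀ w₀ z M w i j r r' r'' y X lam gam κ C₁ C q E P S ys gs →
      Dch D n z i j r X Cd q E P (rcd D i j r a) (zdv D i j r a E P) := by
  obtain ⟨Cd, h1, h2, h⟩ := Pool.P4.dch n (max K K') C hC
  refine ⟨Cd, h1, h2, ?_⟩
  intro D J a₀ w₀ z M w i j r r' r'' y X lam gam κ C₁ q E P S c k ys gs a hy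
  exact h D K K' J a₀ w₀ z M i j r a X lam gam κ C₁ q E P hy.ok (le_max_left _ _)
    (le_max_right _ _) hy.z1 (by have := hy.i2; omega) (by have := hy.j2; omega)
    fun ω hω => ⟨(hy.gd ω hω).1, (hy.gd ω hω).2.2⟩

end Pool.P4
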